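import Pool.Agent.Lib.MP_dbf3d5_gt.Main

/-!
# Strongly `q`-pseudocompact group topologies without convergent sequences

The definitions `Free`, `IsPLimit`, `StronglyPseudocompactAt` and
`HasNontrivialConvergentSequence` are in `Pool/Agent/Lib/MP_dbf3d5_gt/Defs.lean`.

Idea of the proof.  Let `G` be as in the theorem.  Its completion `K` is compact and every coset of
a countable intersection of neighbourhoods of zero meets `G`.  A chain of such subgroups of `K` of
minimal length gives cardinal restrictions on `G` (and on its subgroups `dG`): they have countably
dense families of functions on a set `S` with `|G| ≤ 2 ^ (|S| ^ ω)`.  Together with a decomposition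
of `G` into finitely many blocks `H × ∏ (Y i →₀ ℤ / p ^ k)` these restrictions allow the
construction of homomorphisms into the circle that define the new topology: a homomorphism that
is constant along many sequences, whose images of prescribed sequences have a `q`-limit at a
prescribed point, and that together destroy the convergence of all injective sequences.
-/

open Pool.Agent.Lib.MP_dbf3d5_gt

universe u

namespace Pool.Agent.Results.MP_dbf3d5_gt.NoConvergentSequences

/-- **Theorem.** Let `G` be an abelian group which has a Hausdorff group topology that is strongly
`p`-pseudocompact for some free ultrafilter `p` on `ℕ`, and let `q` be any free ultrafilter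
on `ℕ`.  Then `G` has a Hausdorff group topology that is strongly `q`-pseudocompact and has no
nontrivial convergent sequences. -/
theorem result (G : Type u) [AddCommGroup G]
    (h : ∃ _ : TopologicalSpace G, IsTopologicalAddGroup G ∧ T2Space G ∧
      ∃ p : Ultrafilter ℕ, Free p ∧ StronglyPseudocompactAt p G)
    (q : Ultrafilter ℕ) (hq : Free q) :
    ∃ _ : TopologicalSpace G, IsTopologicalAddGroup G ∧ T2Space G ∧
      StronglyPseudocompactAt q G ∧ ¬ HasNontrivialConvergentSequence G := by
  obtain ⟨t, _, _, p, hp, hG⟩ := h
  exact good_of_psc hp hG hq

end Pool.Agent.Results.MP_dbf3d5_gt.NoConvergentSequences
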